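import Pool.Agent.R638.DD.ASM
import Pool.Agent.R638.DD.COMP
import Pool.Agent.R638.DD.CUT
import Pool.Agent.R638.DD.GLUE
import Pool.Agent.R638.DD.GMap
import Pool.Agent.R638.DD.GPSI
import Pool.Agent.R638.DD.NOC
import Pool.Agent.R638.DD.Path
import Pool.Agent.R638.DD.PArc
import Pool.Agent.R638.DD.Seq
import Pool.Agent.R638.DD.Shr
import Pool.Agent.R638.DD.Third
import Pool.Agent.R638.DD.Unc

set_option autoImplicit false

/-!
# One-point unions of k-to-1 images of dendrites (MP_f86da0_gt)

Let `k ≥ 2` and let `Y₁`, `Y₂` be subcontinua of a metric space which meet in exactly one point.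
If both are exactly-`k`-to-1 images of dendrites then so is `Y₁ ∪ Y₂`. This answers Q1 with yes.

A dendrite (`Pool.Agent.R638.DD.IsDendrite`) is a compact metrizable connected locally connected
space which admits no continuous injection of the circle.
-/

namespace Pool.Agent.Results.MP_f86da0_gt.WedgeKImage

open Set Topology Pool.Agent.R638.DD

/-- **The one-point union of two k-to-1 images of dendrites is a k-to-1 image of a dendrite.** -/
theorem result (k : ℕ) (hk : 2 ≤ k) (Z : Type) [MetricSpace Z] (Y₁ Y₂ : Set Z) (p : Z)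
    (h₁ : IsKImage k Y₁) (h₂ : IsKImage k Y₂) (h : Y₁ ∩ Y₂ = {p}) :
    IsKImage k (Y₁ ∪ Y₂) := by
  have hUnc : StmUnc := t_Unc t_Comp t_Shr
  have hGlue : StmGlue := t_Glue hUnc t_Comp
  have hSeq : StmSeq := t_Seq hUnc t_Comp t_Shr t_Meet
  have hSurg : StmSurg := t_Surg t_Cut hGlue t_GMap t_GPsi
  have hMain' : StmMain' := t_Main' hSeq hSurg hGlue t_GMap t_GPsi
  have hThird : StmThird := t_Third t_Path t_PArc t_Comp
  exact t_Main hMain' hThird t_Noc k hk Z Y₁ Y₂ p h₁ h₂ h

end Pool.Agent.Results.MP_f86da0_gt.WedgeKImage
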